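import Pool.Agent.Helper7.EC_E.GoalsR

/-!
# MP_ecc237_nt, PART E, packet ERR: summation of the errors
-/

set_option autoImplicit false

open MeasureTheory Filter Topology Set

namespace EC237.ZE.PkERR

/-- the majorant -/
noncomputable def B (n : ℤ) : ℝ := (1 + |(n : ℝ)|) * Real.exp (1 - |(n : ℝ)|)

theorem B_nonneg (n : ℤ) : 0 ≤ B n := by unfold B; positivity

theorem B_nat : Summable (fun n : ℕ => B (n : ℤ)) := by
  have hr : ‖Real.exp (-1)‖ < 1 := by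
    rw [Real.norm_eq_abs, abs_of_pos (Real.exp_pos _), Real.exp_lt_one_iff]
    norm_num
  have h1 := summable_pow_mul_geometric_of_norm_lt_one 1 hr
  have h0 := summable_pow_mul_geometric_of_norm_lt_one 0 hr
  have h := ((h0.add h1).mul_left (Real.exp 1))
  refine h.congr fun n => ?_
  unfold B
  simp only [Int.cast_natCast, Nat.abs_cast]
  rw [Real.exp_sub, ← Real.exp_nat_mul]
  have : Real.exp (n * -1) = (Real.exp n)⁻¹ := by rw [mul_neg_one, Real.exp_neg]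
  rw [this]
  field_simp

theorem B_summable : Summable B := by
  apply Summable.of_nat_of_neg B_nat
  refine B_nat.congr fun n => ?_
  simp [B]

theorem B_refl (k : ℤ) : Summable (fun n : ℤ => B (k - n)) ∧ ∑' n : ℤ, B (k - n) = ∑' n, B n := by
  have e : (fun n : ℤ => B (k - n)) = B ∘ (Equiv.subLeft k) := rfl
  constructor
  · rw [e]
    exact (Equiv.summable_iff (Equiv.subLeft k)).2 B_summable
  · exact (Equiv.subLeft k).tsum_eq B

theorem g_le (z : ℝ) (hz : 1 ≤ z) (n : ℤ) :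
    (if n = 0 then (0 : ℝ) else Real.exp (-(|(n : ℝ)| * z))) * (1 + |(n : ℝ)|) ≤
      Real.exp (-z) * B n := by
  split_ifs with h
  · rw [zero_mul]
    have := B_nonneg n
    positivity
  · have h1 : (1 : ℝ) ≤ |(n : ℝ)| := by
      have : (1 : ℤ) ≤ |n| := Int.one_le_abs h
      exact_mod_cast this
    unfold B
    have h2 : Real.exp (-(|(n : ℝ)| * z)) ≤ Real.exp (-z) * Real.exp (1 - |(n : ℝ)|) := by
      rw [← Real.exp_add, Real.exp_le_exp]
      nlinarith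
    calc _ ≤ Real.exp (-z) * Real.exp (1 - |(n : ℝ)|) * (1 + |(n : ℝ)|) := by gcongr
      _ = _ := by ring

theorem re_Dz (z : ℝ) (s : ℤ × ℤ) (n : ℤ) : (Dz z s n).re = s.2 := by
  simp [Dz]

theorem im_Dz (z : ℝ) (s : ℤ × ℤ) (n : ℤ) : (Dz z s n).im = ((s.1 : ℝ) - 2 * n) * z := by
  simp [Dz]

theorem rk_le (s : ℤ × ℤ) : rk s ≤ |(s.1 : ℝ)| + |(s.2 : ℝ)| := by
  rw [rk]
  apply Real.sqrt_le_iff.2
  refine ⟨by positivity, ?_⟩
  have h1 := sq_abs (s.1 : ℝ)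
  have h2 := sq_abs (s.2 : ℝ)
  have h3 : 0 ≤ |(s.1 : ℝ)| * |(s.2 : ℝ)| := by positivity
  nlinarith

theorem bound (z : ℝ) (hz : 1 ≤ z) (s : ℤ × ℤ) (n : ℤ) :
    rk s ≤ 2 * max 1 ‖Dz z s n‖ * (1 + |(n : ℝ)|) ∧
    rk s ≤ 2 * max 1 ‖Dz z s n‖ * (1 + |((s.1 - n : ℤ) : ℝ)|) := by
  have h1 := Complex.abs_re_le_norm (Dz z s n)
  have h2 := Complex.abs_im_le_norm (Dz z s n)
  rw [re_Dz] at h1
  rw [im_Dz, abs_mul, abs_of_pos (by linarith : 0 < z)] at h2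
  have h3 : |(s.1 : ℝ) - 2 * n| ≤ |(s.1 : ℝ) - 2 * n| * z := by
    have := abs_nonneg ((s.1 : ℝ) - 2 * n)
    nlinarith
  have h4 := rk_le s
  set μ := max 1 ‖Dz z s n‖ with hμ
  have hμ1 : 1 ≤ μ := le_max_left _ _
  have hμ2 : ‖Dz z s n‖ ≤ μ := le_max_right _ _
  constructor
  · have h5 : |(s.1 : ℝ)| ≤ |(s.1 : ℝ) - 2 * n| + 2 * |(n : ℝ)| := by
      calc |(s.1 : ℝ)| = |((s.1 : ℝ) - 2 * n) + 2 * n| := by ring_nf
        _ ≤ |(s.1 : ℝ) - 2 * n| + |2 * (n : ℝ)| := abs_add_le _ _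
        _ = _ := by rw [abs_mul, abs_two]
    have h6 : 0 ≤ |(n : ℝ)| * (μ - 1) := mul_nonneg (abs_nonneg _) (by linarith)
    nlinarith
  · push_cast
    have h5 : |(s.1 : ℝ)| ≤ |(s.1 : ℝ) - 2 * n| + 2 * |(s.1 : ℝ) - n| := by
      calc |(s.1 : ℝ)| = |2 * ((s.1 : ℝ) - n) - ((s.1 : ℝ) - 2 * n)| := by ring_nf
        _ ≤ |2 * ((s.1 : ℝ) - n)| + |(s.1 : ℝ) - 2 * n| := abs_sub _ _
        _ = _ := by rw [abs_mul, abs_two]; ring
    have h6 : 0 ≤ |(s.1 : ℝ) - n| * (μ - 1) := mul_nonneg (abs_nonneg _) (by linarith)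
    nlinarith

/-- packet ERR -/
theorem thm : EC237.ZE.G_ERR := by
  have hS : 0 < ∑' n : ℤ, B n := by
    have h0 : 0 < B 0 := by simp [B, Real.exp_pos]
    exact B_summable.tsum_pos (fun n => B_nonneg n) 0 h0
  refine ⟨4 * ∑' n : ℤ, B n, by positivity, ?_⟩
  intro z hz s hs M δ hM hδ
  have hr : 0 < rk s := by
    rw [rk]
    apply Real.sqrt_pos.2
    by_contra hlt
    push Not at hlt
    have a1 : (s.1 : ℝ) = 0 := by nlinarith [sq_nonneg (s.1 : ℝ), sq_nonneg (s.2 : ℝ)]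
    have a2 : (s.2 : ℝ) = 0 := by nlinarith [sq_nonneg (s.1 : ℝ), sq_nonneg (s.2 : ℝ)]
    exact hs (Prod.ext (by exact_mod_cast a1) (by exact_mod_cast a2))
  have key : ∀ n : ℤ, ‖δ n‖ ≤ M * (2 * Real.exp (-z) / rk s) * (B n + B (s.1 - n)) := by
    intro n
    refine (hδ n).trans ?_
    obtain ⟨b1, b2⟩ := bound z hz s n
    set μ := max 1 ‖Dz z s n‖ with hμ
    have hμ0 : 0 < μ := lt_of_lt_of_le one_pos (le_max_left _ _)
    have g1 := g_le z hz n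
    have g2 := g_le z hz (s.1 - n)
    set G1 : ℝ := if n = 0 then (0 : ℝ) else Real.exp (-(|(n : ℝ)| * z)) with hG1
    set G2 : ℝ := if s.1 - n = 0 then (0 : ℝ) else
      Real.exp (-(|((s.1 - n : ℤ) : ℝ)| * z)) with hG2
    have G1n : 0 ≤ G1 := by rw [hG1]; split_ifs <;> positivity
    have G2n : 0 ≤ G2 := by rw [hG2]; split_ifs <;> positivity
    rw [mul_div_assoc, mul_assoc]
    refine mul_le_mul_of_nonneg_left ?_ hM
    rw [div_mul_eq_mul_div, div_le_div_iff₀ hμ0 hr, add_mul]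
    have k1 : G1 * rk s ≤ 2 * μ * (Real.exp (-z) * B n) := by
      calc G1 * rk s ≤ G1 * (2 * μ * (1 + |(n : ℝ)|)) := by gcongr
        _ = 2 * μ * (G1 * (1 + |(n : ℝ)|)) := by ring
        _ ≤ _ := by gcongr
    have k2 : G2 * rk s ≤ 2 * μ * (Real.exp (-z) * B (s.1 - n)) := by
      calc G2 * rk s ≤ G2 * (2 * μ * (1 + |((s.1 - n : ℤ) : ℝ)|)) := by gcongr
        _ = 2 * μ * (G2 * (1 + |((s.1 - n : ℤ) : ℝ)|)) := by ring
        _ ≤ _ := by gcongr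
    nlinarith
  obtain ⟨r1, r2⟩ := B_refl s.1
  have hsum : Summable (fun n : ℤ =>
      M * (2 * Real.exp (-z) / rk s) * (B n + B (s.1 - n))) :=
    (B_summable.add r1).mul_left _
  have hn : Summable (fun n => ‖δ n‖) := Summable.of_nonneg_of_le (fun n => norm_nonneg _) key hsum
  refine ⟨hn.of_norm, ?_⟩
  calc ‖∑' n : ℤ, δ n‖ ≤ ∑' n, ‖δ n‖ := norm_tsum_le_tsum_norm hn
    _ ≤ ∑' n : ℤ, M * (2 * Real.exp (-z) / rk s) * (B n + B (s.1 - n)) :=
        hn.tsum_le_tsum key hsum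
    _ = M * (2 * Real.exp (-z) / rk s) * (∑' n, B n + ∑' n, B n) := by
        rw [tsum_mul_left, B_summable.tsum_add r1, r2]
    _ = _ := by ring

end EC237.ZE.PkERR
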