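import Pool.Agent.Helper7.EC_E.GoalsS

/-!
# MP_ecc237_nt, PART E, packet FB: the functions of block K
-/

set_option autoImplicit false

open MeasureTheory Filter Topology Set

namespace EC237.ZE.PkFB

/-- the strip -/
def Str : Set ℂ := {t : ℂ | |t.im| < 1}

theorem re_sq_add (t : ℂ) (A : ℝ) : (t ^ 2 + (A : ℂ) ^ 2).re = t.re ^ 2 - t.im ^ 2 + A ^ 2 := by
  rw [← Complex.ofReal_pow, Complex.add_re, Complex.ofReal_re, sq t, Complex.mul_re]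
  ring

theorem ne_zero {t : ℂ} (ht : |t.im| < 1) {A : ℝ} (hA : 1 ≤ A) : t ^ 2 + (A : ℂ) ^ 2 ≠ 0 := by
  intro h
  have h1 := congrArg Complex.re h
  rw [re_sq_add, Complex.zero_re] at h1
  have h2 : t.im ^ 2 < 1 := by
    rw [← sq_abs]
    have := abs_nonneg t.im
    nlinarith
  nlinarith [sq_nonneg t.re]

theorem norm_ge {t : ℂ} (ht : |t.im| ≤ 1 / 2) {A : ℝ} (hA : 1 ≤ A) :
    3 / 4 * (t.re ^ 2 + A ^ 2) ≤ ‖t ^ 2 + (A : ℂ) ^ 2‖ := by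
  have h1 := Complex.re_le_norm (t ^ 2 + (A : ℂ) ^ 2)
  rw [re_sq_add] at h1
  have h2 : t.im ^ 2 ≤ 1 / 4 := by
    rw [← sq_abs]
    have := abs_nonneg t.im
    nlinarith
  nlinarith [sq_nonneg t.re]

theorem norm_sq_le {t : ℂ} (ht : |t.im| ≤ 1 / 2) {A : ℝ} (hA : 1 ≤ A) :
    ‖t‖ ^ 2 ≤ t.re ^ 2 + A ^ 2 := by
  rw [Complex.sq_norm, Complex.normSq_apply]
  have h2 : t.im ^ 2 ≤ 1 / 4 := by
    rw [← sq_abs]
    have := abs_nonneg t.im
    nlinarith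
  nlinarith [sq_nonneg t.re]

/-- the telescoping bound -/
theorem tele (x a : ℝ) (ha : 1 ≤ a) :
    Summable (fun j : ℕ => (a + 2 * j) / (x ^ 2 + (a + 2 * j) ^ 2) ^ 2) ∧
    ∑' j : ℕ, (a + 2 * j) / (x ^ 2 + (a + 2 * j) ^ 2) ^ 2 ≤ 9 / 4 * (1 / (x ^ 2 + a ^ 2)) := by
  have hpos : ∀ j : ℕ, 0 < x ^ 2 + (a + 2 * j) ^ 2 := by
    intro j
    have : 0 < a + 2 * (j : ℝ) := by positivity
    positivity
  have hnn : ∀ j : ℕ, 0 ≤ (a + 2 * j) / (x ^ 2 + (a + 2 * j) ^ 2) ^ 2 := by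
    intro j
    have : 0 < a + 2 * (j : ℝ) := by positivity
    positivity
  have hstep : ∀ j : ℕ, (a + 2 * j) / (x ^ 2 + (a + 2 * j) ^ 2) ^ 2 ≤
      9 / 4 * (1 / (x ^ 2 + (a + 2 * j) ^ 2) - 1 / (x ^ 2 + (a + 2 * ((j + 1 : ℕ) : ℝ)) ^ 2)) := by
    intro j
    have h1 := hpos j
    have h2 := hpos (j + 1)
    set A := a + 2 * (j : ℝ) with hA
    have hA1 : 1 ≤ A := by
      have : (0 : ℝ) ≤ j := Nat.cast_nonneg j
      rw [hA]
      linarith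
    have e : a + 2 * ((j + 1 : ℕ) : ℝ) = A + 2 := by
      rw [hA]
      push_cast
      ring
    rw [e] at h2 ⊢
    rw [div_sub_div _ _ h1.ne' h2.ne', ← mul_div_assoc, div_le_div_iff₀ (by positivity)
      (by positivity)]
    have k1 : x ^ 2 + (A + 2) ^ 2 ≤ 9 * (x ^ 2 + A ^ 2) := by nlinarith [sq_nonneg x]
    have k2 : 0 ≤ A * (x ^ 2 + A ^ 2) := by positivity
    have k3 := mul_le_mul_of_nonneg_left k1 k2
    have k4 : 0 ≤ (x ^ 2 + A ^ 2) ^ 2 := by positivity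
    nlinarith
  have hpart : ∀ n : ℕ, ∑ j ∈ Finset.range n, (a + 2 * j) / (x ^ 2 + (a + 2 * j) ^ 2) ^ 2 ≤
      9 / 4 * (1 / (x ^ 2 + a ^ 2)) := by
    intro n
    calc _ ≤ ∑ j ∈ Finset.range n, 9 / 4 * (1 / (x ^ 2 + (a + 2 * j) ^ 2) -
          1 / (x ^ 2 + (a + 2 * ((j + 1 : ℕ) : ℝ)) ^ 2)) := Finset.sum_le_sum fun j _ => hstep j
      _ = 9 / 4 * (1 / (x ^ 2 + (a + 2 * ((0 : ℕ) : ℝ)) ^ 2) -
          1 / (x ^ 2 + (a + 2 * (n : ℝ)) ^ 2)) := by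
          rw [← Finset.mul_sum, Finset.sum_range_sub' (fun j : ℕ =>
            1 / (x ^ 2 + (a + 2 * (j : ℝ)) ^ 2))]
      _ ≤ _ := by
          have := hpos n
          have h3 : 0 < 1 / (x ^ 2 + (a + 2 * (n : ℝ)) ^ 2) := by positivity
          simp only [Nat.cast_zero, mul_zero, add_zero]
          linarith
  have hs := summable_of_sum_range_le hnn hpart
  exact ⟨hs, hs.tsum_le_of_sum_range_le hpart⟩

/-- one term of `tauc` -/
noncomputable def tm (k : ℤ) (j : ℕ) (t : ℂ) : ℂ :=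
  (w0 j : ℂ) * ((|(k:ℝ)| + 2 * j : ℝ) : ℂ) / (t ^ 2 + ((|(k:ℝ)| + 2 * j : ℝ) : ℂ) ^ 2) ^ 2

theorem w0_le (j : ℕ) : ‖(w0 j : ℂ)‖ ≤ 1 := by
  rw [Complex.norm_real, w0]
  split_ifs <;> norm_num

theorem A_ge {k : ℤ} (hk : k ≠ 0) (j : ℕ) : 1 + (j : ℝ) ≤ |(k:ℝ)| + 2 * j := by
  have h1 : (1 : ℝ) ≤ |(k : ℝ)| := by
    have : (1 : ℤ) ≤ |k| := Int.one_le_abs hk
    exact_mod_cast this
  have : (0 : ℝ) ≤ j := Nat.cast_nonneg j
  linarith

theorem A_ge1 {k : ℤ} (hk : k ≠ 0) (j : ℕ) : 1 ≤ |(k:ℝ)| + 2 * j := by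
  have := A_ge hk j
  have h0 : (0 : ℝ) ≤ j := Nat.cast_nonneg j
  linarith

theorem tm_norm {k : ℤ} (hk : k ≠ 0) (j : ℕ) {t : ℂ} (ht : |t.im| ≤ 1 / 2) :
    ‖tm k j t‖ ≤ 16 / 9 * ((|(k:ℝ)| + 2 * j) / (t.re ^ 2 + (|(k:ℝ)| + 2 * j) ^ 2) ^ 2) := by
  have hA := A_ge1 hk j
  have hn := norm_ge ht hA
  unfold tm
  set A : ℝ := |(k:ℝ)| + 2 * j with hAd
  have hA0 : 0 < A := by linarith
  have hp : 0 < t.re ^ 2 + A ^ 2 := by positivity
  rw [norm_div, norm_mul, norm_pow, show ‖(A:ℂ)‖ = A from by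
    rw [Complex.norm_real, Real.norm_eq_abs, abs_of_pos hA0]]
  have h1 : (3 / 4 * (t.re ^ 2 + A ^ 2)) ^ 2 ≤ ‖t ^ 2 + (A : ℂ) ^ 2‖ ^ 2 :=
    pow_le_pow_left₀ (by positivity) hn 2
  calc _ ≤ 1 * A / (3 / 4 * (t.re ^ 2 + A ^ 2)) ^ 2 := by
        have := w0_le j
        gcongr
    _ = _ := by
        field_simp
        ring

theorem tauc_eq (k : ℤ) (t : ℂ) : tauc k t = t * ∑' j : ℕ, tm k j t := rfl

/-- the bound of `tauc` -/
theorem tauc_norm {k : ℤ} (hk : k ≠ 0) {t : ℂ} (ht : |t.im| ≤ 1 / 2) :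
    ‖tauc k t‖ ≤ 4 / Real.sqrt (t.re ^ 2 + (k:ℝ) ^ 2) := by
  have ha : (1 : ℝ) ≤ |(k : ℝ)| := by simpa using A_ge1 hk 0
  obtain ⟨hs, hb⟩ := tele t.re |(k:ℝ)| ha
  have hn : Summable (fun j : ℕ => ‖tm k j t‖) :=
    Summable.of_nonneg_of_le (fun j => norm_nonneg _) (fun j => tm_norm hk j ht) (hs.mul_left _)
  have h1 : ‖∑' j : ℕ, tm k j t‖ ≤ 4 / (t.re ^ 2 + (k:ℝ) ^ 2) := by
    calc _ ≤ ∑' j : ℕ, ‖tm k j t‖ := norm_tsum_le_tsum_norm hn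
      _ ≤ ∑' j : ℕ, 16 / 9 * ((|(k:ℝ)| + 2 * j) / (t.re ^ 2 + (|(k:ℝ)| + 2 * j) ^ 2) ^ 2) :=
          hn.tsum_le_tsum (fun j => tm_norm hk j ht) (hs.mul_left _)
      _ = 16 / 9 * ∑' j : ℕ, (|(k:ℝ)| + 2 * j) / (t.re ^ 2 + (|(k:ℝ)| + 2 * j) ^ 2) ^ 2 :=
          tsum_mul_left
      _ ≤ 16 / 9 * (9 / 4 * (1 / (t.re ^ 2 + |(k:ℝ)| ^ 2))) := by gcongr
      _ = _ := by
          rw [sq_abs]
          ring
  have h2 := norm_sq_le ht ha
  rw [sq_abs] at h2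
  set ρ := t.re ^ 2 + (k:ℝ) ^ 2 with hρ
  have hρ0 : 0 < ρ := by
    have : 0 < (k:ℝ) ^ 2 := by
      rw [← sq_abs]
      positivity
    positivity
  have h3 : ‖t‖ ≤ Real.sqrt ρ := Real.le_sqrt_of_sq_le h2
  have h4 : Real.sqrt ρ ^ 2 = ρ := Real.sq_sqrt hρ0.le
  have h5 : 0 < Real.sqrt ρ := Real.sqrt_pos.2 hρ0
  rw [tauc_eq, norm_mul]
  calc _ ≤ Real.sqrt ρ * (4 / ρ) := by gcongr
    _ = _ := by
        rw [← h4]
        field_simp
        rw [Real.sqrt_sq h5.le]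

theorem tm_diff {k : ℤ} (hk : k ≠ 0) (j : ℕ) : DifferentiableOn ℂ (tm k j) Str := by
  intro t ht
  have hA := A_ge1 hk j
  have hne := ne_zero (t := t) ht hA
  apply DifferentiableAt.differentiableWithinAt
  unfold tm
  apply DifferentiableAt.div
  · fun_prop
  · fun_prop
  · exact pow_ne_zero 2 hne

theorem isOpen_Str (c : ℝ) : IsOpen {t : ℂ | |t.im| < c} :=
  isOpen_lt (by fun_prop) continuous_const

theorem tauc_diff {k : ℤ} (hk : k ≠ 0) : DifferentiableOn ℂ (tauc k) Str := by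
  intro t0 ht0
  obtain ⟨c, hc1, hc2⟩ := exists_between (show |t0.im| < 1 from ht0)
  have hc0 : 0 < c := lt_of_le_of_lt (abs_nonneg _) hc1
  have hU : IsOpen {t : ℂ | |t.im| < c} := isOpen_Str c
  have hsub : {t : ℂ | |t.im| < c} ⊆ Str := fun t ht => lt_trans ht hc2
  have hc3 : 0 < 1 - c ^ 2 := by nlinarith
  have hu : Summable (fun j : ℕ => 1 / (1 - c ^ 2) ^ 2 * (1 / ((j : ℝ) + 1) ^ 2)) := by
    apply Summable.mul_left
    have := (summable_nat_add_iff 1).2 (Real.summable_one_div_nat_pow.2 (one_lt_two))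
    refine this.congr fun j => ?_
    push_cast
    ring
  have hd : DifferentiableOn ℂ (fun t => ∑' j : ℕ, tm k j t) {t : ℂ | |t.im| < c} := by
    apply Complex.differentiableOn_tsum_of_summable_norm hu
      (fun j => (tm_diff hk j).mono hsub) hU
    intro j t ht
    have hA := A_ge1 hk j
    have hA2 := A_ge hk j
    unfold tm
    set A : ℝ := |(k:ℝ)| + 2 * j with hAd
    have hA0 : 0 < A := by linarith
    have hj : (0 : ℝ) ≤ j := Nat.cast_nonneg j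
    have h1 := Complex.re_le_norm (t ^ 2 + (A : ℂ) ^ 2)
    rw [re_sq_add] at h1
    have h2 : t.im ^ 2 ≤ c ^ 2 := by
      rw [← sq_abs]
      exact pow_le_pow_left₀ (abs_nonneg _) (le_of_lt ht) 2
    have h3 : (1 - c ^ 2) * A ^ 2 ≤ ‖t ^ 2 + (A : ℂ) ^ 2‖ := by
      have hc4 : c ^ 2 * 1 ≤ c ^ 2 * A ^ 2 :=
        mul_le_mul_of_nonneg_left (one_le_pow₀ hA) (sq_nonneg c)
      nlinarith [sq_nonneg t.re, sq_nonneg c]
    rw [norm_div, norm_mul, norm_pow, show ‖(A:ℂ)‖ = A from by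
    rw [Complex.norm_real, Real.norm_eq_abs, abs_of_pos hA0]]
    have h4 : ((1 - c ^ 2) * A ^ 2) ^ 2 ≤ ‖t ^ 2 + (A : ℂ) ^ 2‖ ^ 2 :=
      pow_le_pow_left₀ (by positivity) h3 2
    calc _ ≤ 1 * A / ((1 - c ^ 2) * A ^ 2) ^ 2 := by
          have := w0_le j
          gcongr
      _ = 1 / (1 - c ^ 2) ^ 2 * (1 / A ^ 3) := by
          field_simp
      _ ≤ 1 / (1 - c ^ 2) ^ 2 * (1 / ((j : ℝ) + 1) ^ 2) := by
          have h5 : ((j : ℝ) + 1) ^ 2 ≤ A ^ 3 := by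
            calc ((j : ℝ) + 1) ^ 2 ≤ A ^ 2 := by
                  apply pow_le_pow_left₀ (by positivity)
                  linarith
              _ ≤ A ^ 3 := pow_le_pow_right₀ hA (by norm_num)
          gcongr
  have hat : DifferentiableAt ℂ (fun t => ∑' j : ℕ, tm k j t) t0 :=
    (hd t0 hc1).differentiableAt (hU.mem_nhds hc1)
  exact (differentiableAt_id.mul hat).differentiableWithinAt

/-- the property shared by the basic functions -/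
def Good (C : ℝ) (k : ℤ) (g : ℂ → ℂ) : Prop :=
  DifferentiableOn ℂ g Str ∧
    ∀ t : ℂ, |t.im| ≤ 1 / 2 → ‖g t‖ ≤ C / Real.sqrt (t.re ^ 2 + (k:ℝ) ^ 2)

theorem Good.mono {C C' : ℝ} {k : ℤ} {g : ℂ → ℂ} (h : Good C k g) (hC : C ≤ C') :
    Good C' k g :=
  ⟨h.1, fun t ht => (h.2 t ht).trans (by gcongr)⟩

theorem Good.const_mul {C : ℝ} {k : ℤ} {g : ℂ → ℂ} (h : Good C k g) (c : ℂ) :
    Good (‖c‖ * C) k (fun t => c * g t) := by
  refine ⟨h.1.const_mul c, fun t ht => ?_⟩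
  rw [norm_mul, mul_div_assoc]
  exact mul_le_mul_of_nonneg_left (h.2 t ht) (norm_nonneg _)

theorem Good.sub {C C' : ℝ} {k : ℤ} {g g' : ℂ → ℂ} (h : Good C k g) (h' : Good C' k g') :
    Good (C + C') k (fun t => g t - g' t) := by
  refine ⟨h.1.sub h'.1, fun t ht => ?_⟩
  rw [add_div]
  exact (norm_sub_le _ _).trans (add_le_add (h.2 t ht) (h'.2 t ht))

theorem rho_facts {k : ℤ} (hk : k ≠ 0) (x : ℝ) :
    1 ≤ x ^ 2 + (k:ℝ) ^ 2 ∧ (k:ℝ) ^ 2 ≤ x ^ 2 + (k:ℝ) ^ 2 ∧ 1 ≤ (k:ℝ) ^ 2 ∧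
      1 ≤ Real.sqrt (x ^ 2 + (k:ℝ) ^ 2) ∧
      Real.sqrt (x ^ 2 + (k:ℝ) ^ 2) ^ 2 = x ^ 2 + (k:ℝ) ^ 2 := by
  have ha : (1 : ℝ) ≤ |(k : ℝ)| := by simpa using A_ge1 hk 0
  have hk2 : 1 ≤ (k:ℝ) ^ 2 := by
    rw [← sq_abs]
    nlinarith
  have h1 : 1 ≤ x ^ 2 + (k:ℝ) ^ 2 := by nlinarith [sq_nonneg x]
  refine ⟨h1, by nlinarith [sq_nonneg x], hk2, Real.one_le_sqrt.2 h1, Real.sq_sqrt (by linarith)⟩

theorem cast_sq (k : ℤ) : ((k : ℂ)) ^ 2 = (((|(k:ℝ)| : ℝ)) : ℂ) ^ 2 := by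
  rw [← Complex.ofReal_pow, sq_abs]
  push_cast
  rfl

theorem ne_zero_k {k : ℤ} (hk : k ≠ 0) {t : ℂ} (ht : |t.im| < 1) : t ^ 2 + (k:ℂ) ^ 2 ≠ 0 := by
  have ha : (1 : ℝ) ≤ |(k : ℝ)| := by simpa using A_ge1 hk 0
  rw [cast_sq]
  exact ne_zero ht ha

theorem norm_ge_k {k : ℤ} (hk : k ≠ 0) {t : ℂ} (ht : |t.im| ≤ 1 / 2) :
    3 / 4 * (t.re ^ 2 + (k:ℝ) ^ 2) ≤ ‖t ^ 2 + (k:ℂ) ^ 2‖ := by
  have ha : (1 : ℝ) ≤ |(k : ℝ)| := by simpa using A_ge1 hk 0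
  have := norm_ge ht ha
  rw [cast_sq]
  rwa [sq_abs] at this

theorem norm_t {k : ℤ} (hk : k ≠ 0) {t : ℂ} (ht : |t.im| ≤ 1 / 2) :
    ‖t‖ ≤ Real.sqrt (t.re ^ 2 + (k:ℝ) ^ 2) := by
  have ha : (1 : ℝ) ≤ |(k : ℝ)| := by simpa using A_ge1 hk 0
  have := norm_sq_le ht ha
  rw [sq_abs] at this
  exact Real.le_sqrt_of_sq_le this

theorem norm_k {k : ℤ} (t : ℂ) : ‖(k:ℂ)‖ ≤ Real.sqrt (t.re ^ 2 + (k:ℝ) ^ 2) := by
  apply Real.le_sqrt_of_sq_le
  rw [Complex.norm_intCast, sq_abs]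
  nlinarith [sq_nonneg t.re]

theorem good_mu0 {k : ℤ} (hk : k ≠ 0) : Good 2 k (mu0 k) := by
  constructor
  · intro t ht
    have := ne_zero_k hk ht
    refine DifferentiableAt.differentiableWithinAt ?_
    unfold mu0
    exact DifferentiableAt.div (by fun_prop) (by fun_prop) this
  · intro t ht
    have h1 := norm_ge_k hk ht
    have h2 := norm_t hk ht
    obtain ⟨r1, -, -, r4, r5⟩ := rho_facts hk t.re
    rw [mu0, norm_div]
    set R := Real.sqrt (t.re ^ 2 + (k:ℝ) ^ 2) with hR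
    rw [← r5] at h1
    have hR0 : 0 < R := by linarith
    calc _ ≤ R / (3 / 4 * R ^ 2) := by gcongr
      _ = (4 / 3) / R := by field_simp
      _ ≤ 2 / R := by
          gcongr
          norm_num

theorem good_ph {k : ℤ} (hk : k ≠ 0) : Good 2 k (ph k) := by
  constructor
  · intro t ht
    have := ne_zero_k hk ht
    refine DifferentiableAt.differentiableWithinAt ?_
    unfold ph
    exact DifferentiableAt.div (by fun_prop) (by fun_prop) this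
  · intro t ht
    have h1 := norm_ge_k hk ht
    have h2 := norm_k (k := k) t
    obtain ⟨r1, -, -, r4, r5⟩ := rho_facts hk t.re
    rw [ph, norm_div]
    set R := Real.sqrt (t.re ^ 2 + (k:ℝ) ^ 2) with hR
    rw [← r5] at h1
    have hR0 : 0 < R := by linarith
    calc _ ≤ R / (3 / 4 * R ^ 2) := by gcongr
      _ = (4 / 3) / R := by field_simp
      _ ≤ 2 / R := by
          gcongr
          norm_num

theorem good_ph1 {k : ℤ} (hk : k ≠ 0) : Good 4 k (ph1 k) := by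
  constructor
  · intro t ht
    have := ne_zero_k hk ht
    refine DifferentiableAt.differentiableWithinAt ?_
    unfold ph1
    exact DifferentiableAt.div (by fun_prop) (by fun_prop) (pow_ne_zero 2 this)
  · intro t ht
    have h1 := norm_ge_k hk ht
    have h2 := norm_t hk ht
    have h3 := norm_k (k := k) t
    obtain ⟨r1, -, -, r4, r5⟩ := rho_facts hk t.re
    rw [ph1, norm_div, norm_pow]
    set R := Real.sqrt (t.re ^ 2 + (k:ℝ) ^ 2) with hR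
    rw [← r5] at h1
    have hR0 : 0 < R := by linarith
    have h4 : ‖t ^ 2 - (k:ℂ) ^ 2‖ ≤ R ^ 2 + R ^ 2 := by
      refine (norm_sub_le _ _).trans ?_
      rw [norm_pow, norm_pow]
      gcongr
    calc _ ≤ (R ^ 2 + R ^ 2) / (3 / 4 * R ^ 2) ^ 2 := by gcongr
      _ = (32 / 9) / R ^ 2 := by
          field_simp
          ring
      _ ≤ 4 / R := by
          rw [div_le_div_iff₀ (by positivity) hR0]
          nlinarith

theorem good_ph2 {k : ℤ} (hk : k ≠ 0) : Good 20 k (ph2 k) := by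
  constructor
  · intro t ht
    have := ne_zero_k hk ht
    refine DifferentiableAt.differentiableWithinAt ?_
    unfold ph2
    exact DifferentiableAt.div (by fun_prop) (by fun_prop) (pow_ne_zero 3 this)
  · intro t ht
    have h1 := norm_ge_k hk ht
    have h2 := norm_t hk ht
    have h3 := norm_k (k := k) t
    obtain ⟨r1, -, -, r4, r5⟩ := rho_facts hk t.re
    rw [ph2, norm_div, norm_pow]
    set R := Real.sqrt (t.re ^ 2 + (k:ℝ) ^ 2) with hR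
    rw [← r5] at h1
    have hR0 : 0 < R := by linarith
    have h4 : ‖2 * (k:ℂ) ^ 3 - 6 * (k:ℂ) * t ^ 2‖ ≤ 2 * R ^ 3 + 6 * R * R ^ 2 := by
      refine (norm_sub_le _ _).trans ?_
      have e1 : ‖(2 * (k:ℂ) ^ 3)‖ = 2 * ‖(k:ℂ)‖ ^ 3 := by
        rw [norm_mul, norm_pow, Complex.norm_ofNat]
      have e2 : ‖(6 * (k:ℂ) * t ^ 2)‖ = 6 * ‖(k:ℂ)‖ * ‖t‖ ^ 2 := by
        rw [norm_mul, norm_mul, norm_pow, Complex.norm_ofNat]
      rw [e1, e2]
      gcongr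
    calc _ ≤ (2 * R ^ 3 + 6 * R * R ^ 2) / (3 / 4 * R ^ 2) ^ 3 := by gcongr
      _ = (512 / 27) / R ^ 3 := by
          field_simp
          ring
      _ ≤ 20 / R := by
          rw [div_le_div_iff₀ (by positivity) hR0]
          have : R ≤ R ^ 3 := by nlinarith [sq_nonneg R, mul_pos hR0 hR0]
          nlinarith

theorem good_tauc {k : ℤ} (hk : k ≠ 0) : Good 4 k (tauc k) :=
  ⟨tauc_diff hk, fun _ ht => tauc_norm hk ht⟩

/-- the final property -/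
theorem final {D : ℝ} (hD : 0 ≤ D) {k : ℤ} (hk : k ≠ 0) {g h : ℂ → ℂ} (hg : Good D k g)
    (hh : Good D k h) :
    DifferentiableOn ℂ (fun t => g t * h t / (t ^ 2 + (k:ℂ) ^ 2)) {t : ℂ | |t.im| < 1} ∧
    ∀ t : ℂ, |t.im| ≤ 1 / 2 → ‖g t * h t / (t ^ 2 + (k:ℂ) ^ 2)‖ ≤
      4 / 3 * D ^ 2 / (k:ℝ) ^ 2 / (1 + t.re ^ 2) := by
  constructor
  · refine (hg.1.mul hh.1).div (by fun_prop) ?_
    intro t ht
    exact ne_zero_k hk ht
  · intro t ht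
    have h1 := norm_ge_k hk ht
    have h2 := hg.2 t ht
    have h3 := hh.2 t ht
    obtain ⟨r1, r2, r3, r4, r5⟩ := rho_facts hk t.re
    set R := Real.sqrt (t.re ^ 2 + (k:ℝ) ^ 2) with hR
    have hR0 : 0 < R := by linarith
    rw [norm_div, norm_mul]
    have hρ : 0 < t.re ^ 2 + (k:ℝ) ^ 2 := by linarith
    calc _ ≤ (D / R) * (D / R) / (3 / 4 * (t.re ^ 2 + (k:ℝ) ^ 2)) := by gcongr
      _ = 4 / 3 * D ^ 2 / (R ^ 2 * (t.re ^ 2 + (k:ℝ) ^ 2)) := by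
          field_simp
      _ = 4 / 3 * D ^ 2 / ((t.re ^ 2 + (k:ℝ) ^ 2) * (t.re ^ 2 + (k:ℝ) ^ 2)) := by rw [r5]
      _ ≤ 4 / 3 * D ^ 2 / ((k:ℝ) ^ 2 * (1 + t.re ^ 2)) := by
          have : 1 + t.re ^ 2 ≤ t.re ^ 2 + (k:ℝ) ^ 2 := by linarith
          gcongr
      _ = _ := by rw [div_div]

/-- packet FB -/
theorem thm : EC237.ZE.G_FB := by
  have hw1 : 0 ≤ w1 := by unfold w1; positivity
  set D : ℝ := 200 * (1 + w1) with hDdef
  have hD0 : 0 ≤ D := by positivity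
  have hpi : Real.pi ≤ 4 := Real.pi_le_four
  have hpi0 : 0 < Real.pi := Real.pi_pos
  refine ⟨8 / 3 * D ^ 2 + 1, by positivity, ?_⟩
  intro k hk F hF
  have ht := good_tauc hk
  have hm := good_mu0 hk
  have h0 := (good_ph hk).mono (show (2 : ℝ) ≤ D by rw [hDdef]; linarith)
  have h1 := good_ph1 hk
  have h2 := (good_ph2 hk).mono (show (20 : ℝ) ≤ D by rw [hDdef]; linarith)
  have ha : Good D k (aF k) := by
    refine ((ht.const_mul (8 * Real.pi / 3)).sub (h1.const_mul (4 * w1))).mono ?_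
    have e1 : ‖(8 * Real.pi / 3 : ℂ)‖ = 8 * Real.pi / 3 := by
      rw [show (8 * Real.pi / 3 : ℂ) = ((8 * Real.pi / 3 : ℝ) : ℂ) by push_cast; ring,
        Complex.norm_real, Real.norm_eq_abs, abs_of_pos (by positivity)]
    have e2 : ‖(4 * w1 : ℂ)‖ = 4 * w1 := by
      rw [show (4 * w1 : ℂ) = ((4 * w1 : ℝ) : ℂ) by push_cast; ring,
        Complex.norm_real, Real.norm_eq_abs, abs_of_nonneg (by positivity)]
    rw [e1, e2, hDdef]
    nlinarith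
  have hb : Good D k (bF k) := by
    refine (hm.const_mul (-(2 * Real.pi ^ 2 / 9))).mono ?_
    have e1 : ‖(-(2 * Real.pi ^ 2 / 9) : ℂ)‖ = 2 * Real.pi ^ 2 / 9 := by
      rw [norm_neg, show (2 * Real.pi ^ 2 / 9 : ℂ) = ((2 * Real.pi ^ 2 / 9 : ℝ) : ℂ) by
        push_cast; ring, Complex.norm_real, Real.norm_eq_abs, abs_of_pos (by positivity)]
    rw [e1, hDdef]
    nlinarith
  have hc : Good D k (cF k) := by
    refine (ht.const_mul (-(8 * Real.pi))).mono ?_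
    have e1 : ‖(-(8 * Real.pi) : ℂ)‖ = 8 * Real.pi := by
      rw [norm_neg, show (8 * Real.pi : ℂ) = ((8 * Real.pi : ℝ) : ℂ) by
        push_cast; ring, Complex.norm_real, Real.norm_eq_abs, abs_of_pos (by positivity)]
    rw [e1, hDdef]
    nlinarith
  have hd : Good D k (dF k) := by
    refine (hm.const_mul (Real.pi ^ 2 / 2)).mono ?_
    have e1 : ‖(Real.pi ^ 2 / 2 : ℂ)‖ = Real.pi ^ 2 / 2 := by
      rw [show (Real.pi ^ 2 / 2 : ℂ) = ((Real.pi ^ 2 / 2 : ℝ) : ℂ) by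
        push_cast; ring, Complex.norm_real, Real.norm_eq_abs, abs_of_pos (by positivity)]
    rw [e1, hDdef]
    nlinarith
  have wk : ∀ (F : ℂ → ℂ), (DifferentiableOn ℂ F {t : ℂ | |t.im| < 1} ∧
      ∀ t : ℂ, |t.im| ≤ 1 / 2 → ‖F t‖ ≤ 4 / 3 * D ^ 2 / (k:ℝ) ^ 2 / (1 + t.re ^ 2)) →
      (DifferentiableOn ℂ F {t : ℂ | |t.im| < 1} ∧
      ∀ t : ℂ, |t.im| ≤ 1 / 2 → ‖F t‖ ≤ (8 / 3 * D ^ 2 + 1) / (k:ℝ) ^ 2 / (1 + t.re ^ 2)) := by
    intro F hF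
    refine ⟨hF.1, fun t ht => (hF.2 t ht).trans ?_⟩
    have : 4 / 3 * D ^ 2 ≤ 8 / 3 * D ^ 2 + 1 := by nlinarith [sq_nonneg D]
    gcongr
  simp only [Set.mem_insert_iff, Set.mem_singleton_iff] at hF
  rcases hF with rfl | rfl | rfl | rfl | rfl
  · exact wk _ (final hD0 hk ha hc)
  · have f1 := final hD0 hk ha hd
    have f2 := final hD0 hk hb hc
    have e : F2 k = fun t => aF k t * dF k t / (t ^ 2 + (k:ℂ) ^ 2) +
        bF k t * cF k t / (t ^ 2 + (k:ℂ) ^ 2) := by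
      funext t
      rw [F2, add_div]
    rw [e]
    refine ⟨f1.1.add f2.1, fun t ht => ?_⟩
    refine (norm_add_le _ _).trans ((add_le_add (f1.2 t ht) (f2.2 t ht)).trans ?_)
    rw [← add_div, ← add_div]
    have : 4 / 3 * D ^ 2 + 4 / 3 * D ^ 2 ≤ 8 / 3 * D ^ 2 + 1 := by linarith
    gcongr
  · exact wk _ (final hD0 hk hb hd)
  · exact wk _ (final hD0 hk h0 h2)
  · have := final hD0 hk h0 h0
    have e : F5 k = fun t => ph k t * ph k t / (t ^ 2 + (k:ℂ) ^ 2) := by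
      funext t
      rw [F5, sq (ph k t)]
    rw [e]
    exact wk _ this

end EC237.ZE.PkFB
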